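import Pool.Agent.TM2Lib.Sat3
import Pool.Agent.helper17.T3S.Defs

/-!
# The reduction from 3-SAT to the tree 3-spanner problem is computable in polynomial time
-/

namespace Pool.Agent.TM2Lib.T3S

open Pool.Agent.H17T3S D

/-! ### equality tests -/

/-- equality of `Poly` functions with values in `X` is `Poly` -/
def PEq (X : Type) [Enc X] [DecidableEq X] : Prop :=
  ∀ (α : Type) [Enc α] (f g : α → X), Poly f → Poly g → Poly (fun a => decide (f a = g a))

theorem pEq_nat : PEq ℕ := fun _ _ _ _ hf hg => Poly.NPC.nat_eq hf hg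

theorem pEq_bool : PEq Bool := fun _ _ _ _ hf hg =>
  (Poly.NPC.beq hf hg).of_eq fun a => by
    rw [Bool.eq_iff_iff]
    simp

theorem pEq_prod {X Y : Type} [Enc X] [DecidableEq X] [Enc Y] [DecidableEq Y] (hX : PEq X)
    (hY : PEq Y) : PEq (X × Y) := fun α _ f g hf hg =>
  (Poly.and (hX α _ _ hf.fst' hg.fst') (hY α _ _ hf.snd' hg.snd')).of_eq fun a => by
    rw [Bool.eq_iff_iff]
    simp [Prod.ext_iff]

theorem pEq_lit : PEq Lit := pEq_prod pEq_nat pEq_bool

theorem pEq_cl : PEq Cl := pEq_prod pEq_lit (pEq_prod pEq_lit pEq_lit)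

/-! ### removing repetitions -/

theorem dedup_foldr {X : Type} [DecidableEq X] (l : List X) :
    l.foldr (fun a acc => if (acc.any fun b => decide (a = b)) then acc else a :: acc) [] =
      l.dedup := by
  induction l with
  | nil => rfl
  | cons a l ih =>
    rw [List.foldr_cons, ih]
    by_cases h : a ∈ l
    · rw [List.dedup_cons_of_mem h, if_pos]
      rw [List.any_eq_true]
      exact ⟨a, List.mem_dedup.2 h, by simp⟩
    · rw [List.dedup_cons_of_notMem h, if_neg]
      rw [List.any_eq_true]
      rintro ⟨b, hb, hab⟩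
      rw [decide_eq_true_eq] at hab
      rw [← hab, List.mem_dedup] at hb
      exact h hb

theorem poly_dedup {X α : Type} [Enc X] [DecidableEq X] [Enc α] (hX : PEq X) {f : α → List X}
    (hf : Poly f) : Poly (fun a => (f a).dedup) := by
  obtain ⟨F, hF⟩ := hf.size
  have h1 := Poly.foldr_add (f := f) (g := fun _ => ([] : List X))
    (h := fun p : α × (List X × X) => if (p.2.1.any fun b => decide (p.2.2 = b)) then p.2.1
      else p.2.2 :: p.2.1) hf (Poly.const _)
    (Poly.ite (Poly.any (h := fun q : (α × (List X × X)) × X => decide (q.1.2.2 = q.2))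
      Poly.id.snd'.fst' (hX _ _ _ Poly.id.fst'.snd'.snd' Poly.id.snd'))
      Poly.id.snd'.fst' (Poly.id.snd'.snd'.cons Poly.id.snd'.fst')) (F + 1) (by
    intro a s b hb
    have h2 := Poly.sz_mem_le hb
    have h3 := hF a
    simp only [Polynomial.eval_add, Polynomial.eval_one]
    split_ifs
    · omega
    · rw [sz_cons]; omega)
  exact h1.of_eq fun a => dedup_foldr _

/-! ### codes of names -/

/-- code of an index -/
def ri (i : Fin 3) : Bool × Bool := (decide (i = 1), decide (i = 2))

/-- the index with a given code -/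
def mi (x : Bool × Bool) : Fin 3 := if x.1 then 1 else if x.2 then 2 else 0

theorem mi_ri (i : Fin 3) : mi (ri i) = i := by fin_cases i <;> rfl

/-- the tag of a name -/
abbrev Tag : Type := Bool × Bool × Bool

/-- a name as a tuple -/
def rep : Nm → (Tag × (Bool × Bool)) × Cl
  | .x => (((false, false, false), (false, false)), ((0, false), (0, false), (0, false)))
  | .L l => (((false, false, true), (false, false)), (l, (0, false), (0, false)))
  | .W l => (((false, true, false), (false, false)), (l, (0, false), (0, false)))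
  | .a c i => (((false, true, true), ri i), c)
  | .d c i => (((true, false, false), ri i), c)
  | .b c i => (((true, false, true), ri i), c)
  | .t c i => (((true, true, false), ri i), c)

/-- the name with a given tag, index and clause -/
def mk : Tag × (Bool × Bool) → Cl → Nm
  | ((false, false, false), _), _ => .x
  | ((false, false, true), _), c => .L c.1
  | ((false, true, false), _), c => .W c.1
  | ((false, true, true), i), c => .a c (mi i)
  | ((true, false, false), i), c => .d c (mi i)
  | ((true, false, true), i), c => .b c (mi i)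
  | ((true, true, false), i), c => .t c (mi i)
  | ((true, true, true), _), _ => .x

theorem mk_rep (u : Nm) : mk (rep u).1 (rep u).2 = u := by
  cases u <;> simp [rep, mk, mi_ri]

instance : Enc Nm := ⟨fun u => enc (rep u)⟩

/-- the seven kinds of names -/
def Simple (u : Cl → Nm) : Prop :=
  u = (fun _ => .x) ∨ u = (fun c => .L c.1) ∨ u = (fun c => .W c.1) ∨
    (∃ i, u = fun c => .a c i) ∨ (∃ i, u = fun c => .d c i) ∨ (∃ i, u = fun c => .b c i) ∨
    (∃ i, u = fun c => .t c i)

theorem simple_mk (x : Tag × (Bool × Bool)) : Simple (mk x) := by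
  obtain ⟨⟨t1, t2, t3⟩, i⟩ := x
  cases t1 <;> cases t2 <;> cases t3
  · exact Or.inl rfl
  · exact Or.inr (Or.inl rfl)
  · exact Or.inr (Or.inr (Or.inl rfl))
  · exact Or.inr (Or.inr (Or.inr (Or.inl ⟨mi i, rfl⟩)))
  · exact Or.inr (Or.inr (Or.inr (Or.inr (Or.inl ⟨mi i, rfl⟩))))
  · exact Or.inr (Or.inr (Or.inr (Or.inr (Or.inr (Or.inl ⟨mi i, rfl⟩)))))
  · exact Or.inr (Or.inr (Or.inr (Or.inr (Or.inr (Or.inr ⟨mi i, rfl⟩)))))
  · exact Or.inl rfl

section
variable {α : Type} [Enc α]

theorem poly_lit {f : α → Cl} (hf : Poly f) (i : Fin 3) : Poly (fun a => (f a).lit i) := by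
  fin_cases i
  · exact hf.fst'
  · exact hf.snd'.fst'
  · exact hf.snd'.snd'

theorem poly_opp {f g : α → Lit} (hf : Poly f) (hg : Poly g) :
    Poly (fun a => decide ((f a).1 = (g a).1 ∧ (f a).2 ≠ (g a).2)) :=
  (Poly.and (pEq_nat α _ _ hf.fst' hg.fst') (Poly.not (pEq_bool α _ _ hf.snd' hg.snd'))).of_eq
    fun a => by rw [Bool.eq_iff_iff]; simp

theorem poly_cl_and {f g : α → Cl} (hf : Poly f) (hg : Poly g) (p : Prop) [Decidable p] :
    Poly (fun a => decide (f a = g a ∧ p)) :=
  (Poly.and (pEq_cl α _ _ hf hg) (Poly.const (decide p))).of_eq fun a => by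
    rw [Bool.eq_iff_iff]; simp

end

theorem poly_arc {u v : Cl → Nm} (hu : Simple u) (hv : Simple v) :
    Poly (fun p : Cl × Cl => (u p.1).arc (v p.2)) := by
  have F : Poly (fun p : Cl × Cl => p.1) := Poly.fst
  have S : Poly (fun p : Cl × Cl => p.2) := Poly.snd
  have cF : Poly (fun _ : Cl × Cl => false) := Poly.const false
  have cT : Poly (fun _ : Cl × Cl => true) := Poly.const true
  rcases hu with rfl | rfl | rfl | ⟨i, rfl⟩ | ⟨i, rfl⟩ | ⟨i, rfl⟩ | ⟨i, rfl⟩ <;>
    rcases hv with rfl | rfl | rfl | ⟨j, rfl⟩ | ⟨j, rfl⟩ | ⟨j, rfl⟩ | ⟨j, rfl⟩ <;>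
    first
    | exact cF
    | exact cT
    | exact poly_opp F.fst' S.fst'
    | exact pEq_lit _ _ _ F.fst' S.fst'
    | exact poly_cl_and F S (i ≠ j)
    | exact poly_cl_and F S (i = j)
    | exact pEq_lit _ _ _ (poly_lit F i) S.fst'

theorem poly_adj0 {u v : Cl → Nm} (hu : Simple u) (hv : Simple v) :
    Poly (fun p : Cl × Cl => (u p.1).adj (v p.2)) :=
  Poly.or (poly_arc hu hv) ((poly_arc hv hu).comp (Poly.snd.pair Poly.fst))

theorem casesPoly_tag : NPC.CasesPoly (Tag × (Bool × Bool)) :=
  NPC.casesPoly_prod (NPC.casesPoly_prod NPC.casesPoly_bool (NPC.casesPoly_prod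
    NPC.casesPoly_bool NPC.casesPoly_bool)) (NPC.casesPoly_prod NPC.casesPoly_bool
      NPC.casesPoly_bool)

theorem poly_adj {α : Type} [Enc α] {f g : α → Nm} (hf : Poly f) (hg : Poly g) :
    Poly (fun a => (f a).adj (g a)) := by
  have hf' : Poly (fun a => rep (f a)) := hf
  have hg' : Poly (fun a => rep (g a)) := hg
  have h1 : Poly (fun a => (mk (rep (f a)).1 (rep (f a)).2).adj (mk (rep (g a)).1 (rep (g a)).2)) :=
    casesPoly_tag α Bool (fun x a => (mk x (rep (f a)).2).adj (mk (rep (g a)).1 (rep (g a)).2))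
      (fun a => (rep (f a)).1) (fun x => casesPoly_tag α Bool
        (fun y a => (mk x (rep (f a)).2).adj (mk y (rep (g a)).2)) (fun a => (rep (g a)).1)
          (fun y => (poly_adj0 (simple_mk x) (simple_mk y)).comp (hf'.snd'.pair hg'.snd'))
            hg'.fst') hf'.fst'
  exact h1.of_eq fun a => by rw [mk_rep, mk_rep]

/-! ### the list of vertices -/

section
variable {α : Type} [Enc α]

theorem poly_L {f : α → Lit} (hf : Poly f) : Poly (fun a => Nm.L (f a)) := by
  have h : Poly (fun a => rep (Nm.L (f a))) :=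
    (Poly.const ((false, false, true), (false, false))).pair (hf.pair (Poly.const _))
  exact h

theorem poly_W {f : α → Lit} (hf : Poly f) : Poly (fun a => Nm.W (f a)) := by
  have h : Poly (fun a => rep (Nm.W (f a))) :=
    (Poly.const ((false, true, false), (false, false))).pair (hf.pair (Poly.const _))
  exact h

theorem poly_a {f : α → Cl} (hf : Poly f) (i : Fin 3) : Poly (fun a => Nm.a (f a) i) := by
  have h : Poly (fun a => rep (Nm.a (f a) i)) := (Poly.const ((false, true, true), ri i)).pair hf
  exact h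

theorem poly_d {f : α → Cl} (hf : Poly f) (i : Fin 3) : Poly (fun a => Nm.d (f a) i) := by
  have h : Poly (fun a => rep (Nm.d (f a) i)) := (Poly.const ((true, false, false), ri i)).pair hf
  exact h

theorem poly_b {f : α → Cl} (hf : Poly f) (i : Fin 3) : Poly (fun a => Nm.b (f a) i) := by
  have h : Poly (fun a => rep (Nm.b (f a) i)) := (Poly.const ((true, false, true), ri i)).pair hf
  exact h

theorem poly_t {f : α → Cl} (hf : Poly f) (i : Fin 3) : Poly (fun a => Nm.t (f a) i) := by
  have h : Poly (fun a => rep (Nm.t (f a) i)) := (Poly.const ((true, true, false), ri i)).pair hf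
  exact h

end

theorem poly_vars : Poly vars := by
  unfold vars
  refine poly_dedup pEq_nat (Poly.flatMap (h := fun p : CNF3 × Cl =>
    [p.2.1.1, p.2.2.1.1, p.2.2.2.1]) Poly.id ?_)
  exact Poly.id.snd'.fst'.fst'.cons (Poly.id.snd'.snd'.fst'.fst'.cons
    (Poly.id.snd'.snd'.snd'.fst'.cons (Poly.const [])))

theorem poly_verts : Poly verts := by
  unfold verts
  refine (Poly.const Nm.x).cons (Poly.append ?_ ?_)
  · refine Poly.flatMap (h := fun p : CNF3 × ℕ => [Nm.L (p.2, true), Nm.L (p.2, false),
      Nm.W (p.2, true), Nm.W (p.2, false)]) poly_vars ?_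
    have h1 : Poly (fun p : CNF3 × ℕ => ((p.2, true) : Lit)) := Poly.id.snd'.pair (Poly.const _)
    have h2 : Poly (fun p : CNF3 × ℕ => ((p.2, false) : Lit)) := Poly.id.snd'.pair (Poly.const _)
    exact (poly_L h1).cons ((poly_L h2).cons ((poly_W h1).cons ((poly_W h2).cons
      (Poly.const []))))
  · refine Poly.flatMap (h := fun p : CNF3 × Cl => [Nm.a p.2 0, .a p.2 1, .a p.2 2, .d p.2 0,
      .d p.2 1, .d p.2 2, .b p.2 0, .b p.2 1, .b p.2 2, .t p.2 0, .t p.2 1, .t p.2 2])
      (poly_dedup pEq_cl Poly.id) ?_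
    have h : Poly (fun p : CNF3 × Cl => p.2) := Poly.snd
    exact (poly_a h 0).cons ((poly_a h 1).cons ((poly_a h 2).cons ((poly_d h 0).cons
      ((poly_d h 1).cons ((poly_d h 2).cons ((poly_b h 0).cons ((poly_b h 1).cons
      ((poly_b h 2).cons ((poly_t h 0).cons ((poly_t h 1).cons ((poly_t h 2).cons
      (Poly.const []))))))))))))

/-! ### adjacency lists -/

/-- adjacency lists from the list of names -/
def adjL (vs : List Nm) : List (List ℕ) :=
  vs.map fun u => (vs.zipIdx.filter fun p => u.adj p.1).map fun p => p.2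

theorem zipIdx_eq {X : Type} (vs : List X) :
    vs.zipIdx = (List.finRange vs.length).map fun u => (vs.get u, (u : ℕ)) := by
  apply List.ext_getElem
  · simp
  · intro n h1 h2
    simp

theorem map_finRange_get {X Y : Type} (vs : List X) (g : X → Y) :
    (List.finRange vs.length).map (fun v => g (vs.get v)) = vs.map g := by
  apply List.ext_getElem
  · simp
  · intro n h1 h2
    simp

open Classical in
theorem adjLists_gr (φ : CNF3) : adjLists (gr φ) = adjL (verts φ) := by
  unfold adjLists adjL
  rw [← map_finRange_get (verts φ)]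
  change (List.finRange (verts φ).length).map _ = _
  apply List.map_congr_left
  intro v _
  rw [zipIdx_eq, List.filter_map, List.map_map]
  have h1 : (List.finRange (verts φ).length).filter (fun u => decide ((gr φ).2.Adj v u)) =
      (List.finRange (verts φ).length).filter ((fun p : Nm × ℕ => ((verts φ).get v).adj p.1) ∘
        fun u => ((verts φ).get u, (u : ℕ))) := by
    apply List.filter_congr
    intro u _
    rw [Bool.eq_iff_iff, decide_eq_true_eq]
    rfl
  rw [← h1]
  rfl

theorem poly_adjL {α : Type} [Enc α] {f : α → List Nm} (hf : Poly f) :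
    Poly (fun a => adjL (f a)) := by
  unfold adjL
  refine Poly.map (h := fun p : α × Nm => (((f p.1).zipIdx.filter fun q => p.2.adj q.1).map
    fun q => q.2)) hf ?_
  refine Poly.map (h := fun q : (α × Nm) × (Nm × ℕ) => q.2.2) ?_ Poly.id.snd'.snd'
  refine Poly.filter (h := fun q : (α × Nm) × (Nm × ℕ) => q.1.2.adj q.2.1) ?_ ?_
  · exact Poly.NPC.zipIdx (hf.comp Poly.fst)
  · exact poly_adj Poly.id.fst'.snd' Poly.id.snd'.fst'

/-- **Module B**: the reduction is computable in polynomial time. -/
theorem poly_gr : Poly gr := by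
  have h1 : Poly (fun φ => adjL (verts φ)) := poly_adjL poly_verts
  exact h1.congr (fun _ => rfl) fun φ => by
    have h2 : (enc (gr φ) : D) = enc (adjLists (gr φ)) := rfl
    rw [h2, adjLists_gr]

end Pool.Agent.TM2Lib.T3S
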