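import Pool.Agent.H64T3S.ModD
import Pool.Agent.H64T3S.PolyGr
import Pool.Agent.helper17.T3S.Suff
import Pool.Agent.helper17.T3S.Necess

/-!
# The tree 3-spanner problem is NP-hard
-/

namespace Pool.Agent.H17T3S

open Pool.Agent.TM2Lib

/-- the reduction -/
noncomputable def red (φ : CNF3) : (TreeSpanner 3).Inst := ⟨gr φ, connected φ⟩

theorem reduces : GridW.Reduces SAT3 (TreeSpanner 3) := by
  refine ⟨red, ?_, fun φ => correct φ⟩
  have h : Comp (GridW.code : CNF3 → List Bool) (fun φ => (TreeSpanner 3).code (red φ)) :=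
    T3S.poly_gr
  exact Comp.to_tm (ea := (GridW.code : CNF3 → List Bool)) (eb := (TreeSpanner 3).code) h

/-- **The tree 3-spanner problem is NP-hard.** -/
theorem treeSpanner_hard : GridW.NPHard (TreeSpanner 3) := by
  intro L hL
  obtain ⟨f, hf, hf'⟩ := sat3_hard L hL
  obtain ⟨g, hg, hg'⟩ := reduces
  refine ⟨fun x => g (f x), ?_, fun x => (hf' x).trans (hg' (f x))⟩
  obtain ⟨hf⟩ := hf
  obtain ⟨hg⟩ := hg
  have h3 := Comp.of_tm hf
  have h4 := Comp.reindex (Comp.of_tm hg) f
  exact Comp.to_tm (ea := (GridW.Lang L).code) (eb := (TreeSpanner 3).code) (h3.trans h4)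

end Pool.Agent.H17T3S
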