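import Pool.Agent.TM2Lib.Sat3
import Pool.Agent.helper17.T3S.Defs

/-!
# 3-SAT is NP-hard, in the format of the tree 3-spanner project
-/

namespace Pool.Agent.H17T3S

open Pool.Agent.TM2Lib

/-- **Module D**: 3-SAT is NP-hard. -/
theorem sat3_hard : GridW.NPHard SAT3 := by
  intro L hL
  have hL' : NPC.InNP (NPC.Lang L) := hL
  obtain ⟨f, hf, hfL⟩ := NPC.sat3_hard L hL'
  have h1 := NPC.comp_of_polyTime hf
  have h2 : GridW.PolyTime (id : List Bool → List Bool) (GridW.code : CNF3 → List Bool)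
      (fun x => (f x).1) :=
    Comp.to_tm (ea := (id : List Bool → List Bool)) (eb := (GridW.code : CNF3 → List Bool)) h1
  exact ⟨fun x => (f x).1, h2, hfL⟩

end Pool.Agent.H17T3S
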